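import Pool.Agent.Q278.Flip2
import Pool.Agent.Q278.Res

set_option autoImplicit false

/-! Existence and uniqueness of the exponent `f_{p,m,r}`, its value, and the two relations
between `f_{p,m,r+m}` and `f_{p,m,r}`. -/

namespace Pool.Agent.Results.MP_20c673_nt.Full

open Finset Polynomial

/-- The indeterminate `q`. -/
noncomputable abbrev q : RatFunc ℚ := RatFunc.X

/-- The coefficient `c_k`. -/
noncomputable def c (m r k : ℕ) : RatFunc ℚ := ∏ j ∈ range k,
  (1 - q ^ (r + j * m)) * (1 - q ^ ((m : ℤ) - r + j * m)) / (1 - q ^ ((j + 1) * m)) ^ 2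

/-- The polynomial `S_{p,m,r}(x)` over `ℚ(q)`. -/
noncomputable def S (p m r : ℕ) : (RatFunc ℚ)[X] := ∑ k ∈ range p, C (c m r k) * X ^ k

/-- The polynomial `T_{p,m,r}(x)` over `ℚ(q)`. -/
noncomputable def T (p m r : ℕ) : (RatFunc ℚ)[X] :=
  ∑ k ∈ range p, C (c m r k * q ^ (m * k)) * ∏ j ∈ range k, (1 - C (q ^ (j * m)) * X)

/-- `[p] = 1 + q + ⋯ + q ^ (p - 1)`. -/
noncomputable def qp (p : ℕ) : ℚ[X] := ∑ i ∈ range p, X ^ i

/-- `A ≡ B (mod [p]²)`: the numerator of every coefficient of `A - B`, written as a reduced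
fraction, is divisible by `[p]²`. -/
def Cong (p : ℕ) (A B : (RatFunc ℚ)[X]) : Prop := ∀ j, qp p ^ 2 ∣ RatFunc.num ((A - B).coeff j)

/-- `⟨a⟩_p`, the least nonnegative residue modulo `p` of a rational number `a`. -/
def res (p : ℕ) (a : ℚ) : ℕ := ((a.num : ZMod p) * ((a.den : ZMod p))⁻¹).val

/-- Admissible triples. -/
def Adm (p m r : ℕ) : Prop := p.Prime ∧ p ≠ 2 ∧ 1 ≤ m ∧ 1 ≤ r ∧ ¬ m ∣ r ∧ ¬ p ∣ m

/-- The congruence of Q1 with the exponent `f`. -/
def Holds (p m r : ℕ) (f : ℤ) : Prop :=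
  Cong p (S p m r) (C ((-1) ^ (res p (-(r : ℚ) / m)) * q ^ f) * T p m r)

theorem holds_iff {p m r : ℕ} (h : Adm p m r) {N : ℕ} (hN : N < p)
    (hd : (p : ℤ) ∣ r + m * N) (f : ℤ) : Holds p m r f ↔ f = -Q278.Flip.ex p m r N := by
  have := Q278.Flip.main p m r h.1 h.2.1 h.2.2.2.2.2 hN hd f
  have e := Q278.Res.res_unique (r := r) h.1 h.2.2.2.2.2 hN hd
  unfold Holds
  have e2 : res p (-(r : ℚ) / m) = N := e
  rw [e2]
  exact this

theorem result :
    -- Q1: existence and uniqueness of the exponent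
    (∀ p m r, Adm p m r → ∃! f : ℤ, Holds p m r f) ∧
    -- Q2: the two relations
    (∀ p m r, Adm p m r → ∀ f f' : ℤ, Holds p m r f → Holds p m (r + m) f' →
      (p ∣ r → f' = -f) ∧ (¬ p ∣ r → f' = f - r)) ∧
    -- the value of the exponent
    (∀ p m r, Adm p m r → ∀ f : ℤ, Holds p m r f → ∀ N : ℕ, N = res p (-(r : ℚ) / m) →
      2 * f = -(m * N * (N + 1)) + (2 * N - (p - 1)) * (r + m * N)) := by
  have hval : ∀ p m r, Adm p m r → ∀ f : ℤ, Holds p m r f → ∀ N : ℕ,
      N = res p (-(r : ℚ) / m) →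
      2 * f = -(m * N * (N + 1)) + (2 * N - (p - 1)) * (r + m * N) := by
    intro p m r h f hf N hN
    have h1 : N < p := by rw [hN]; exact Q278.Res.res_lt h.1 _
    have h2 : (p : ℤ) ∣ r + m * N := by rw [hN]; exact Q278.Res.res_spec h.1 h.2.2.2.2.2
    rw [(holds_iff h h1 h2 f).1 hf]
    unfold Q278.Flip.ex
    have e1 : (2 : ℤ) * ((N * (N + 1) / 2 : ℕ) : ℤ) = N * (N + 1) := by
      have : 2 * (N * (N + 1) / 2) = N * (N + 1) :=
        Nat.mul_div_cancel' (even_iff_two_dvd.1 (Nat.even_mul_succ_self N))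
      exact_mod_cast this
    have e2 : (2 : ℤ) * (((p - 1) / 2 : ℕ) : ℤ) = p - 1 := by
      have hodd : p % 2 = 1 := by
        rcases h.1.eq_two_or_odd with h3 | h3
        · exact absurd h3 h.2.1
        · exact h3
      omega
    linear_combination (-(m : ℤ)) * e1 - (r + m * N) * e2
  refine ⟨?_, ?_, hval⟩
  · intro p m r h
    have h1 := Q278.Res.res_lt h.1 (-(r : ℚ) / m)
    have h2 := Q278.Res.res_spec (r := r) h.1 h.2.2.2.2.2
    exact ⟨_, (holds_iff h h1 h2 _).2 rfl, fun f hf => (holds_iff h h1 h2 f).1 hf⟩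
  · intro p m r h f f' hf hf'
    have hpp := h.1.pos
    have hA : Adm p m (r + m) := ⟨h.1, h.2.1, h.2.2.1, by have := h.2.2.2.1; omega,
      fun hd => h.2.2.2.2.1 ((Nat.dvd_add_left dvd_rfl).1 hd), h.2.2.2.2.2⟩
    have h1 := Q278.Res.res_lt h.1 (-(r : ℚ) / m)
    have h2 := Q278.Res.res_spec (r := r) h.1 h.2.2.2.2.2
    have v1 := hval p m r h f hf _ rfl
    have v2 := hval p m (r + m) hA f' hf' _ rfl
    have e : res p (-(r : ℚ) / m) = Q278.Res.res p (-(r : ℚ) / m) := rfl
    rw [e] at v1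
    set N := Q278.Res.res p (-(r : ℚ) / m)
    have hodd : (p : ℤ) % 2 = 1 := by
      rcases h.1.eq_two_or_odd with h3 | h3
      · exact absurd h3 h.2.1
      · omega
    constructor
    · intro hpr
      have hN : N = 0 := Q278.Res.res_unique h.1 h.2.2.2.2.2 hpp (by
        have : (p : ℤ) ∣ r := Int.natCast_dvd_natCast.2 hpr
        simpa using this)
      have hN' : res p (-((r + m : ℕ) : ℚ) / m) = p - 1 :=
        Q278.Res.res_unique h.1 h.2.2.2.2.2 (by omega) (by
          obtain ⟨a, ha⟩ := hpr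
          refine ⟨a + m, ?_⟩
          push_cast [Nat.cast_sub h.1.one_lt.le, ha]
          ring)
      rw [hN'] at v2
      rw [hN] at v1
      push_cast [Nat.cast_sub h.1.one_lt.le] at v1 v2
      have : 2 * f' = 2 * (-f) := by linear_combination v2 + v1
      linarith
    · intro hpr
      have hN0 : N ≠ 0 := by
        intro h0
        rw [h0] at h2
        apply hpr
        have : (p : ℤ) ∣ r := by simpa using h2
        exact Int.natCast_dvd_natCast.1 this
      have hN' : res p (-((r + m : ℕ) : ℚ) / m) = N - 1 :=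
        Q278.Res.res_unique h.1 h.2.2.2.2.2 (by omega) (by
          have e3 : (((r + m : ℕ) : ℤ)) + m * ((N - 1 : ℕ) : ℤ) = r + m * N := by
            push_cast [Nat.cast_sub (show 1 ≤ N by omega)]
            ring
          rw [e3]; exact h2)
      rw [hN'] at v2
      push_cast [Nat.cast_sub (show 1 ≤ N by omega)] at v2
      have : 2 * f' = 2 * (f - r) := by linear_combination v2 - v1
      linarith

end Pool.Agent.Results.MP_20c673_nt.Full
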